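import Pool.Agent.L0h94.SP.StmF
import Pool.Agent.N187.PP.GN
import Pool.Agent.N630.PP.GP

/-!
# Cocycles are cohomologous if and only if the classes are equal
-/

set_option autoImplicit false
set_option linter.all false
set_option maxHeartbeats 4000000

open Polynomial
open scoped Classical

namespace Pool.Agent.L0h96.SP

open Pool.Agent.L0h94.SP
open Pool.Agent.N874.PP (sW IsBeta Rt sg S_GP3 S_GP4)
open Pool.Agent.TH115.GD (Pt act rs IsCoc Sep)
open Pool.Agent.N187.PP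

variable {K : Type} [Field K] {A B : K}

theorem neg_of_two {W : WeierstrassCurve K} {T : Pt W (Sep K)} (h : (2 : ℕ) • T = 0) : -T = T := by
  rw [two_nsmul] at h
  exact (eq_neg_of_add_eq_zero_left h).symm

/-- The difference of two cocycles. -/
theorem coc_sub {W : WeierstrassCurve K} {f g : (Sep K ≃ₐ[K] Sep K) → Pt W (Sep K)}
    (hf : IsCoc W f) (hg : IsCoc W g) : IsCoc W (fun σ => f σ - g σ) := by
  refine ⟨?_, fun σ τ => ?_⟩
  · exact hf.lc.comp₂ hg.lc (fun x y => x - y)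
  · change f (σ * τ) - g (σ * τ) = (f σ - g σ) + act W (rs K σ) (f τ - g τ)
    rw [hf.mul, hg.mul, map_sub]
    abel

theorem two_sub {W : WeierstrassCurve K} {T U : Pt W (Sep K)} (h : (2 : ℕ) • T = 0)
    (h' : (2 : ℕ) • U = 0) : (2 : ℕ) • (T - U) = 0 := by
  rw [nsmul_sub, h, h', sub_zero]

/-- The sign of a difference. -/
theorem sg_sub (h6 : (6 : K) ≠ 0) (hd : 4 * A ^ 3 + 27 * B ^ 2 ≠ 0)
    (hirr : Irreducible (X ^ 3 + C A * X + C B : K[X])) {T U : Pt (sW A B) (Sep K)}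
    (hT : (2 : ℕ) • T = 0) (hU : (2 : ℕ) • U = 0) {t : Sep K} (ht : Rt A B t) :
    sg (T - U) t = sg T t * sg U t := by
  obtain ⟨t₁, t₂, t₃, n1, n2, n3, r1, r2, r3, -⟩ := exists_roots h6 hirr
  have h := (Pool.Agent.N630.PP.gp3 K (Sep K) A B h6 hd t₁ t₂ t₃ r1 r2 r3 n1 n2 n3).2.1 T U t hT hU ht
  rw [sub_eq_add_neg, neg_of_two hU]
  exact h

theorem t_COB : S_COB := by
  intro K _ A B h6 hd hirr f g β γ h k hf hg hβ hγ hh hk
  have hmk : ∀ p : K[X], AdjoinRoot.mk (X ^ 3 + C A * X + C B : K[X]) p =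
      aeval (AdjoinRoot.root (X ^ 3 + C A * X + C B : K[X])) p := fun p =>
    (AdjoinRoot.aeval_eq p).symm
  constructor
  · rintro ⟨T, hT, hfg⟩
    obtain ⟨t₁, t₂, t₃, n1, n2, n3, r1, r2, r3, -⟩ := exists_roots h6 hirr
    obtain ⟨p, hp⟩ := exists_poly (t := t₁) (x := sg T t₁ * β t₁ * γ t₁) (by
      intro σ hσ
      rw [map_mul, map_mul, fix_sg, (hβ t₁ r1).2 σ, (hγ t₁ r1).2 σ, hσ]
      have h1 : sg (f σ) t₁ * sg (g σ) t₁ = 1 := by
        rw [← sg_sub h6 hd hirr (hf.2 σ) (hg.2 σ) r1]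
        have h2 := hfg σ
        change f σ - g σ = _ at h2
        rw [h2, sg_sub h6 hd hirr (two_act' _ hT) hT r1]
        have h3 := sg_act' Pool.Agent.N630.PP.gp4 σ T t₁
        rw [hσ] at h3
        rw [h3]
        exact sg_mul_self T t₁
      linear_combination (sg T t₁ * β t₁ * γ t₁) * h1)
    have hdvd : X ^ 3 + C A * X + C B ∣ h * k - p ^ 2 := by
      rw [← minpoly_eq hirr r1]
      apply minpoly.dvd
      rw [map_sub, map_mul, map_pow, hp, hh t₁ r1, hk t₁ r1]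
      have h1 := sg_mul_self T t₁
      linear_combination (-(β t₁ * γ t₁) ^ 2) * h1
    refine ⟨AdjoinRoot.mk _ p, ?_⟩
    rw [← map_mul, ← sub_eq_zero, ← map_sub, AdjoinRoot.mk_eq_zero, ← pow_two]
    exact hdvd
  · intro hsq
    haveI : Fact (Irreducible (X ^ 3 + C A * X + C B : K[X])) := ⟨hirr⟩
    have hrt : Rt A B (AdjoinRoot.root (X ^ 3 + C A * X + C B : K[X])) := by
      rw [rt_iff, ← hmk, AdjoinRoot.mk_self]
    have hfin : Module.finrank K (AdjoinRoot (X ^ 3 + C A * X + C B : K[X])) = 3 := by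
      rw [(AdjoinRoot.powerBasis hirr.ne_zero).finrank, AdjoinRoot.powerBasis_dim, F_natDegree]
    have hβγ : IsBeta A B (fun σ => f σ - g σ) (fun t => β t * γ t) := by
      intro t ht
      refine ⟨mul_ne_zero (hβ t ht).1 (hγ t ht).1, fun σ => ?_⟩
      change σ (β t * γ t) = sg (f σ - g σ) (σ t) * (β (σ t) * γ (σ t))
      rw [map_mul, (hβ t ht).2 σ, (hγ t ht).2 σ,
        sg_sub h6 hd hirr (hf.2 σ) (hg.2 σ) (rt_map' σ ht)]
      ring
    have hhk : ∀ t : Sep K, Rt A B t → aeval t (h * k) = (β t * γ t) ^ 2 := by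
      intro t ht
      rw [map_mul, hh t ht, hk t ht, mul_pow]
    rw [hmk] at hsq
    obtain ⟨T, hT, hT'⟩ := gt Pool.Agent.N630.PP.gp3 Pool.Agent.N630.PP.gp4 K A B h6 hd hirr
      (fun σ => f σ - g σ) (coc_sub hf.1 hg.1) (fun σ => two_sub (hf.2 σ) (hg.2 σ))
      (fun t => β t * γ t) (h * k) hβγ hhk (AdjoinRoot (X ^ 3 + C A * X + C B : K[X]))
      (AdjoinRoot.root _) hrt hfin hsq
    exact ⟨T, hT, hT'⟩

end Pool.Agent.L0h96.SP
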